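import Pool.Agent.H693R2.Cap.PolyInst

/-!
# Computing the capacity of forbidden difference patterns is NP-hard

Reduction from 3SAT. From a formula we compute a list `D` of forbidden patterns and a number `M`
(polynomially bounded, even bounded by the total length of the words in `D`) such that
`cap(D) ≥ 1 / M` if the formula is satisfiable and `cap(D) ≤ (M - 3) / M ^ 2` otherwise.

The patterns force the non-zero letters of a difference `u - v` to come in pairs `+ -` or `- +` at
distances taken from a set `A`, two such pairs starting at distance `≥ R`. The set `A` consists of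
the differences `g j - g i` of the marks of a ruler with distinct triple sums, for the pairs
`i, j` of vertices joined in the conflict graph of the formula (a clause and one of its literals
being a vertex). In each window of length `R` one can then distinguish as many words as there are
positions with pairwise distances in `A`, which is the clique number of that graph.
-/

set_option autoImplicit false

namespace Pool.Agent.NPC.H693Cap

open Pool.Agent.H693R2.Cap Filter

section

variable {α : Type} [TEnc α]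

theorem poly_inv {m : α → ℕ} (hm : Poly m) (hpos : ∀ a, 0 < m a) :
    Poly (fun a => (1 : ℚ) / (m a : ℚ)) := by
  have h : Poly (fun a => (((false, 1), m a) : (Bool × ℕ) × ℕ)) := Poly.pair (Poly.const _) hm
  refine Poly.of_toT (h.toT'.congr fun a => ?_)
  have h1 : ((1 : ℚ) / (m a : ℚ)).num = 1 := by
    rw [one_div, Rat.inv_natCast_num_of_pos (hpos a)]
  have h2 : ((1 : ℚ) / (m a : ℚ)).den = m a := by
    rw [one_div, Rat.inv_natCast_den_of_pos (hpos a)]
  show toT (((false, 1), m a) : (Bool × ℕ) × ℕ) = toT ((((1 : ℚ) / (m a : ℚ)).num,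
    ((1 : ℚ) / (m a : ℚ)).den) : ℤ × ℕ)
  rw [h1, h2]
  rfl

end

theorem sat_iff (φ : List Clause) : SAT3 φ ↔
    inst φ ≠ [] ∧ (((1 : ℚ) / (MM φ : ℚ) : ℚ) : ℝ) ≤ cap (inst φ) := by
  have hcast : (((1 : ℚ) / (MM φ : ℚ) : ℚ) : ℝ) = 1 / (MM φ : ℝ) := by push_cast; rfl
  rw [hcast]
  constructor
  · intro h
    exact ⟨pats_ne_nil _ _, cap_ge_of_sat h⟩
  · rintro ⟨_, h⟩
    by_contra hcon
    have h1 := h.trans (cap_le_of_unsat hcon)
    have hM : (0 : ℝ) < MM φ := by exact_mod_cast MM_pos φ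
    rw [div_le_div_iff₀ hM (by positivity)] at h1
    nlinarith

theorem MM_le_total (φ : List Clause) : MM φ ≤ ((inst φ).map List.length).sum := by
  have h1 := two_GG_le_MM φ
  have h2 := MM_le φ
  have h3 := RR_add φ
  have h4 : zeros (RR φ) (RR φ - 1) ++ (1 :: zeros (RR φ) (RR φ - 1)) ∈ inst φ := by
    unfold inst pats
    simp only [List.mem_append]
    right; right; right
    rw [mem_D4, zeros_eq _ _ (Nat.sub_le _ _)]
  have h5 : (zeros (RR φ) (RR φ - 1) ++ (1 :: zeros (RR φ) (RR φ - 1))).length ∈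
      (inst φ).map List.length := List.mem_map_of_mem h4
  have h6 := List.single_le_sum (l := (inst φ).map List.length) (fun _ _ => Nat.zero_le _) _ h5
  rw [zeros_eq _ _ (Nat.sub_le _ _)] at h6
  simp only [List.length_append, List.length_cons, List.length_replicate] at h6
  omega

theorem approx (φ : List Clause) : inst φ ≠ [] ∧
    1 ≤ 2 * ((1 : ℚ) / ((2 * (MM φ * MM φ) : ℕ) : ℚ)) *
      ((((inst φ).map List.length).sum : ℕ) : ℚ) ^ 2 ∧
    ∀ q : ℚ, |(q : ℝ) - cap (inst φ)| ≤ (((1 : ℚ) / ((2 * (MM φ * MM φ) : ℕ) : ℚ) : ℚ) : ℝ) →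
      (SAT3 φ ↔ (1 : ℚ) / ((MM φ + 1 : ℕ) : ℚ) ≤ q) := by
  refine ⟨pats_ne_nil _ _, ?_, ?_⟩
  · have hM : (0 : ℚ) < MM φ := by exact_mod_cast MM_pos φ
    have h1 : (MM φ : ℚ) ≤ ((((inst φ).map List.length).sum : ℕ) : ℚ) := by
      exact_mod_cast MM_le_total φ
    set s : ℚ := ((((inst φ).map List.length).sum : ℕ) : ℚ) with hs
    have h2 : 2 * ((1 : ℚ) / ((2 * (MM φ * MM φ) : ℕ) : ℚ)) * s ^ 2 = s ^ 2 / (MM φ : ℚ) ^ 2 := by
      push_cast
      field_simp
    rw [h2, le_div_iff₀ (by positivity), one_mul]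
    exact pow_le_pow_left₀ hM.le h1 2
  · intro q hq
    have hM : (0 : ℝ) < MM φ := by exact_mod_cast MM_pos φ
    have hM8 : (8 : ℝ) ≤ MM φ := by
      have := two_GG_le_MM φ
      exact_mod_cast (show 8 ≤ MM φ by omega)
    have hε : (((1 : ℚ) / ((2 * (MM φ * MM φ) : ℕ) : ℚ) : ℚ) : ℝ) =
        1 / (2 * ((MM φ : ℝ) * MM φ)) := by push_cast; rfl
    have hr : ((1 : ℚ) / ((MM φ + 1 : ℕ) : ℚ) ≤ q) ↔ (1 : ℝ) / ((MM φ : ℝ) + 1) ≤ (q : ℝ) := by
      rw [← Rat.cast_le (K := ℝ)]
      push_cast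
      rfl
    rw [hε, abs_le] at hq
    rw [hr]
    constructor
    · intro h
      have h1 := cap_ge_of_sat h
      have h2 : (1 : ℝ) / ((MM φ : ℝ) + 1) ≤ 1 / (MM φ : ℝ) - 1 / (2 * ((MM φ : ℝ) * MM φ)) := by
        rw [← sub_nonneg]
        have : 1 / (MM φ : ℝ) - 1 / (2 * ((MM φ : ℝ) * MM φ)) - 1 / ((MM φ : ℝ) + 1) =
            ((MM φ : ℝ) - 1) / (2 * ((MM φ : ℝ) * MM φ) * ((MM φ : ℝ) + 1)) := by
          field_simp
          ring
        rw [this]
        apply div_nonneg (by linarith) (by positivity)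
      linarith [hq.1]
    · intro h
      by_contra hcon
      have h1 := cap_le_of_unsat hcon
      have h2 : ((MM φ : ℝ) - 3) / (MM φ : ℝ) ^ 2 + 1 / (2 * ((MM φ : ℝ) * MM φ)) <
          1 / ((MM φ : ℝ) + 1) := by
        rw [← sub_pos]
        have : 1 / ((MM φ : ℝ) + 1) - (((MM φ : ℝ) - 3) / (MM φ : ℝ) ^ 2 +
            1 / (2 * ((MM φ : ℝ) * MM φ))) =
            (3 * (MM φ : ℝ) + 5) / (2 * ((MM φ : ℝ) * MM φ) * ((MM φ : ℝ) + 1)) := by
          field_simp
          ring
        rw [this]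
        positivity
      linarith [hq.2]

theorem poly_exact : Poly (fun φ : List Clause => (inst φ, (1 : ℚ) / (MM φ : ℚ))) :=
  Poly.pair poly_inst (poly_inv upoly_MM.toPoly MM_pos)

theorem poly_approx :
    Poly (fun φ : List Clause => (inst φ, (1 : ℚ) / ((2 * (MM φ * MM φ) : ℕ) : ℚ))) :=
  Poly.pair poly_inst (poly_inv (Poly.mul (Poly.const 2)
    (Poly.mul upoly_MM.toPoly upoly_MM.toPoly)) (fun φ => by
      have := Nat.mul_pos (MM_pos φ) (MM_pos φ)
      omega))

theorem poly_threshold : Poly (fun φ : List Clause => (1 : ℚ) / ((MM φ + 1 : ℕ) : ℚ)) :=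
  poly_inv (Poly.add upoly_MM.toPoly (Poly.const 1)) (fun _ => Nat.succ_pos _)

end Pool.Agent.NPC.H693Cap

namespace Pool.Agent.Results.MP_edb722_lc.CapacityNPHard

open Pool.Agent.H693R2.Cap Pool.Agent.NPC Pool.Agent.NPC.H693Cap Filter

/-- The limit defining the capacity exists; deciding `r ≤ cap(D)` is NP-hard; approximating the
capacity is NP-hard, even within `1 / (2 s ^ 2)`, `s` the total length of the patterns. -/
theorem result :
    (∀ D : List (List SignType),
      Tendsto (fun t : ℕ => Real.logb 2 (delta D t) / t) atTop (nhds (cap D))) ∧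
    NPHardP (fun p : List (List SignType) × ℚ => p.1 ≠ [] ∧ (p.2 : ℝ) ≤ cap p.1) ∧
    (∀ L : Set (List Bool), InNP L →
      ∃ (D : List Bool → List (List SignType)) (ε r : List Bool → ℚ),
        PolyTime (fun x => bits (D x, ε x)) ∧ PolyTime (fun x => bits (r x)) ∧
        ∀ x, D x ≠ [] ∧ 1 ≤ 2 * ε x * ((((D x).map List.length).sum : ℕ) : ℚ) ^ 2 ∧
          ∀ q : ℚ, |(q : ℝ) - cap (D x)| ≤ (ε x : ℝ) → (x ∈ L ↔ r x ≤ q)) := by
  refine ⟨tendsto_cap, ?_, ?_⟩
  · apply HardI.toNPHardP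
    exact HardI.trans hardI_SAT3 (f := fun φ => (inst φ, (1 : ℚ) / (MM φ : ℚ)))
      poly_exact sat_iff
  · intro L hL
    obtain ⟨g, hg, hgL⟩ := hardI_SAT3 L hL
    refine ⟨fun x => inst (g x), fun x => (1 : ℚ) / ((2 * (MM (g x) * MM (g x)) : ℕ) : ℚ),
      fun x => (1 : ℚ) / ((MM (g x) + 1 : ℕ) : ℚ), ?_, ?_, ?_⟩
    · exact PC.toPolyTime_bits poly_approx g hg
    · exact PC.toPolyTime_bits poly_threshold g hg
    · intro x
      obtain ⟨h1, h2, h3⟩ := approx (g x)
      exact ⟨h1, h2, fun q hq => (hgL x).trans (h3 q hq)⟩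

end Pool.Agent.Results.MP_edb722_lc.CapacityNPHard
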